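import Pool.Agent.H82.POLY.Main
import Pool.Agent.H72.EUC.OPP

set_option autoImplicit false

namespace Pool.NTB

open Pool.POLY

/-- The women's order. -/
def WL {A : Type} (dW : A → A → ℝ) (σ τ : Equiv.Perm A) : Prop :=
  ∀ w, dW w (τ.symm w) ≤ dW w (σ.symm w)

section

variable {A P : Type} [PartialOrder P] {dM dW : A → A → ℝ} {π : Equiv.Perm A} {el : A → P}

/-- The conditions of the interval theorem. -/
structure Cond (dM dW : A → A → ℝ) (π : Equiv.Perm A) (el : A → P) : Prop where
  iM : ∀ a, Function.Injective (dM a)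
  iW : ∀ w, Function.Injective (dW w)
  c1 : ∀ a, dM a a < dM a (π a)
  c2 : ∀ w, dW w (π.symm w) < dW w w
  c3 : ∀ a w, dM a w ≤ dM a (π a) → dW w a ≤ dW w w →
    w = a ∨ w = π a ∨ (el w < el a ∧ dM a a < dM a w ∧ dW w (π.symm w) < dW w a)
  c4 : ∀ p q : P, p ⋖ q → ∃ a w, el a = q ∧ el w = p ∧ dM a w ≤ dM a (π a) ∧ dW w a ≤ dW w w
  cyc : ∀ a b, el a = el b ↔ π.SameCycle a b
  sur : Function.Surjective el

theorem Cond.ne (h : Cond dM dW π el) (a : A) : π a ≠ a := by
  intro hh
  have := h.c1 a
  rw [hh] at this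
  exact lt_irrefl _ this

theorem Cond.ne' (h : Cond dM dW π el) (a : A) : π.symm a ≠ a := by
  intro hh
  have := h.c2 a
  rw [hh] at this
  exact lt_irrefl _ this

theorem Cond.he (h : Cond dM dW π el) (a : A) : el (π a) = el a :=
  ((h.cyc a (π a)).mpr (Equiv.Perm.sameCycle_apply_right.mpr (Equiv.Perm.SameCycle.refl _ _))).symm

/-- The matching of a lower set is stable. -/
theorem Cond.st (h : Cond dM dW π el) (S : Set P) [DecidablePred (· ∈ S)]
    (hS : ∀ p q, p ≤ q → q ∈ S → p ∈ S) : St dM dW (sp π el h.he S) := by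
  intro a w ⟨h1, h2⟩
  have hle : dM a w < dM a (π a) := by
    by_cases hc : el a ∈ S
    · rwa [sp_mem h.he hc] at h1
    · rw [sp_not h.he hc] at h1
      exact h1.trans (h.c1 a)
  have hle2 : dW w a < dW w w := by
    by_cases hc : el w ∈ S
    · rw [sps_mem h.he hc] at h2
      exact h2.trans (h.c2 w)
    · rwa [sps_not h.he hc] at h2
  rcases h.c3 a w hle.le hle2.le with h3 | h3 | ⟨h3, h4, h5⟩
  · rw [h3] at hle2
    exact absurd hle2 (by rw [← h3]; exact lt_irrefl _)
  · rw [h3] at hle
    exact lt_irrefl _ hle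
  · have hin : el a ∈ S := by
      by_contra hc
      rw [sp_not h.he hc] at h1
      exact absurd h1 (not_lt.mpr h4.le)
    have hout : el w ∉ S := by
      intro hc
      rw [sps_mem h.he hc] at h2
      exact absurd h2 (not_lt.mpr h5.le)
    exact hout (hS _ _ h3.le hin)

/-- The matching of a lower set lies between the identity and `π`. -/
theorem Cond.btw (h : Cond dM dW π el) (S : Set P) [DecidablePred (· ∈ S)] :
    WL dW 1 (sp π el h.he S) ∧ WL dW (sp π el h.he S) π := by
  constructor
  · intro w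
    change dW w ((sp π el h.he S).symm w) ≤ dW w w
    by_cases hc : el w ∈ S
    · rw [sps_mem h.he hc]; exact (h.c2 w).le
    · rw [sps_not h.he hc]
  · intro w
    by_cases hc : el w ∈ S
    · rw [sps_mem h.he hc]
    · rw [sps_not h.he hc]; exact (h.c2 w).le

/-- A stable matching in the interval moves every man to himself or to his successor. -/
theorem Cond.cases [Fintype A] [Finite P] (h : Cond dM dW π el) (σ : Equiv.Perm A)
    (hσ : St dM dW σ) (h1 : WL dW 1 σ) (h2 : WL dW σ π) (a : A) : σ a = a ∨ σ a = π a := by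
  classical
  have st1 : St dM dW (1 : Equiv.Perm A) := by
    intro a w ⟨h3, h4⟩
    change dM a w < dM a a at h3
    change dW w a < dW w w at h4
    rcases h.c3 a w (h3.le.trans (h.c1 a).le) h4.le with h5 | h5 | ⟨h5, h6, h7⟩
    · rw [h5] at h3; exact lt_irrefl _ h3
    · rw [h5] at h3; exact absurd h3 (not_lt.mpr (h.c1 a).le)
    · exact absurd h3 (not_lt.mpr h6.le)
  have stπ : St dM dW π := by
    intro a w ⟨h3, h4⟩
    rcases h.c3 a w h3.le (h4.le.trans (h.c2 w).le) with h5 | h5 | ⟨h5, h6, h7⟩
    · rw [← h5] at h4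
      exact absurd h4 (not_lt.mpr (h.c2 w).le)
    · rw [h5] at h3; exact lt_irrefl _ h3
    · exact absurd h4 (not_lt.mpr h7.le)
  have hM1 : ∀ a, dM a a ≤ dM a (σ a) := fun a =>
    Pool.EUC.opp_thm A dM dW h.iM h.iW 1 σ st1 hσ h1 a
  have hM2 : ∀ a, dM a (σ a) ≤ dM a (π a) := fun a =>
    Pool.EUC.opp_thm A dM dW h.iM h.iW σ π hσ stπ h2 a
  have hW : ∀ w, dW w (σ.symm w) ≤ dW w w := fun w => h1 w
  have hc : ∀ a, σ a = a ∨ σ a = π a ∨ el (σ a) < el a := by
    intro a
    have h3 := hW (σ a)
    rw [Equiv.symm_apply_apply] at h3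
    rcases h.c3 a (σ a) (hM2 a) h3 with h4 | h4 | h4
    · exact Or.inl h4
    · exact Or.inr (Or.inl h4)
    · exact Or.inr (Or.inr h4.1)
  have : Fintype P := Fintype.ofFinite P
  set f : P → ℕ := fun p => (Finset.univ.filter fun q => q < p).card with hfd
  have hfm : ∀ p q : P, p < q → f p < f q := by
    intro p q hpq
    refine Finset.card_lt_card ?_
    rw [Finset.ssubset_iff_of_subset]
    · exact ⟨p, by simp [hpq], by simp⟩
    · intro r hr
      simp only [Finset.mem_filter, Finset.mem_univ, true_and] at hr ⊢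
      exact hr.trans hpq
  have hle : ∀ a ∈ Finset.univ, f (el (σ a)) ≤ f (el a) := by
    intro a _
    rcases hc a with h3 | h3 | h3
    · rw [h3]
    · rw [h3, h.he]
    · exact (hfm _ _ h3).le
  have hsum : ∑ a, f (el (σ a)) = ∑ a, f (el a) :=
    Equiv.sum_comp σ fun a => f (el a)
  have heq := (Finset.sum_eq_sum_iff_of_le hle).mp hsum a (Finset.mem_univ a)
  rcases hc a with h3 | h3 | h3
  · exact Or.inl h3
  · exact Or.inr h3
  · exact absurd heq (hfm _ _ h3).ne

/-- The lower sets of `P` are the stable matchings between the identity and `π`. -/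
theorem Cond.main [Fintype A] [Finite P] (h : Cond dM dW π el) :
    ∃ f : LowerSet P ≃ {σ : Equiv.Perm A // St dM dW σ ∧ WL dW 1 σ ∧ WL dW σ π},
      ∀ S T, S ≤ T ↔ WL dW (f S).1 (f T).1 := by
  classical
  have hlow : ∀ S : LowerSet P, ∀ p q, p ≤ q → q ∈ (S : Set P) → p ∈ (S : Set P) :=
    fun S p q h hq => S.lower h hq
  let g : LowerSet P → {σ : Equiv.Perm A // St dM dW σ ∧ WL dW 1 σ ∧ WL dW σ π} := fun S =>
    ⟨sp π el h.he (S : Set P), h.st (S : Set P) (hlow S), h.btw (S : Set P)⟩
  have hmv : ∀ (S : LowerSet P) (a : A), (g S).1 a = π a ↔ el a ∈ (S : Set P) := by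
    intro S a
    constructor
    · intro h1
      by_contra hc
      have h2 : (g S).1 a = a := sp_not h.he hc
      exact h.ne a (h1.symm.trans h2)
    · intro h1
      exact sp_mem h.he h1
  have hinj : Function.Injective g := by
    intro S T hST
    ext p
    obtain ⟨a, rfl⟩ := h.sur p
    have h1 := hmv S a
    have h2 := hmv T a
    rw [hST] at h1
    exact h1.symm.trans h2
  have hsurj : Function.Surjective g := by
    rintro ⟨σ, hσ, hb1, hb2⟩
    have hc := h.cases σ hσ hb1 hb2
    have hstep : ∀ a, σ a = π a → σ (π a) = π (π a) := by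
      intro a ha
      rcases hc (π a) with h1 | h1
      · exact absurd (σ.injective (h1.trans ha.symm)) (h.ne a)
      · exact h1
    have hpow : ∀ (n : ℕ) a, σ a = π a → σ ((π ^ n) a) = π ((π ^ n) a) := by
      intro n
      induction n with
      | zero => intro a ha; exact ha
      | succ n ih =>
        intro a ha
        rw [pow_succ, Equiv.Perm.mul_apply]
        exact ih (π a) (hstep a ha)
    have hall : ∀ a b, el a = el b → σ a = π a → σ b = π b := by
      intro a b hab ha
      obtain ⟨n, hn⟩ := ((h.cyc a b).mp hab).exists_nat_pow_eq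
      rw [← hn]
      exact hpow n a ha
    have hcovS : ∀ p q : P, p ⋖ q → (∀ a, el a = q → σ a = π a) → ∀ w, el w = p → σ w = π w := by
      intro p q hpq hq w' hw'
      obtain ⟨a, w, ha, hw, hm1, hm2⟩ := h.c4 p q hpq
      refine hall w w' (hw.trans hw'.symm) ?_
      rcases hc w with h1 | h1
      · exfalso
        have hne : w ≠ π a := by
          intro h1
          exact hpq.lt.ne (hw.symm.trans (by rw [h1, h.he, ha]))
        have hne2 : a ≠ w := by
          intro h1
          exact hpq.lt.ne (hw.symm.trans (by rw [← h1, ha]))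
        refine hσ a w ⟨?_, ?_⟩
        · rw [hq a ha]
          exact lt_of_le_of_ne hm1 fun h1 => hne (h.iM a h1)
        · have h2 : σ.symm w = w := by rw [Equiv.symm_apply_eq, h1]
          rw [h2]
          exact lt_of_le_of_ne hm2 fun h1 => hne2 (h.iW w h1)
      · exact h1
    have key : ∀ q p : P, p ≤ q → (∀ a, el a = q → σ a = π a) → ∀ a, el a = p → σ a = π a := by
      have : WellFoundedLT P := inferInstance
      intro q
      induction q using WellFoundedLT.induction with
      | ind q ih =>
        intro p hpq hq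
        rcases hpq.lt_or_eq with h1 | h1
        · obtain ⟨r, hr1, hr2⟩ := exists_le_covBy_of_lt h1
          exact ih r hr2.lt p hr1 (hcovS r q hr2 hq)
        · rw [h1]; exact hq
    let S : LowerSet P := ⟨{p | ∀ a, el a = p → σ a = π a}, fun q p hpq hq => key q p hpq hq⟩
    refine ⟨S, ?_⟩
    apply Subtype.ext
    ext a
    by_cases h1 : el a ∈ (S : Set P)
    · rw [(hmv S a).mpr h1]
      exact (h1 a rfl).symm
    · have h2 : (g S).1 a = a := sp_not h.he h1
      rw [h2]
      rcases hc a with h3 | h3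
      · exact h3.symm
      · exfalso
        apply h1
        intro b hb
        exact hall a b hb.symm h3
  refine ⟨Equiv.ofBijective g ⟨hinj, hsurj⟩, ?_⟩
  intro S T
  change S ≤ T ↔ ∀ w, dW w ((g T).1.symm w) ≤ dW w ((g S).1.symm w)
  constructor
  · intro hST w
    by_cases hT : el w ∈ (T : Set P)
    · have h1 : (g T).1.symm w = π.symm w := sps_mem h.he hT
      rw [h1]
      exact (h.btw (S : Set P)).2 w
    · have hS : el w ∉ (S : Set P) := fun h1 => hT (hST h1)
      have h1 : (g T).1.symm w = w := sps_not h.he hT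
      have h2 : (g S).1.symm w = w := sps_not h.he hS
      rw [h1, h2]
  · intro hw p hp
    obtain ⟨w, rfl⟩ := h.sur p
    by_contra hT
    have h1 : (g T).1.symm w = w := sps_not h.he hT
    have h2 : (g S).1.symm w = π.symm w := sps_mem h.he hp
    have h3 := hw w
    rw [h1, h2] at h3
    exact absurd h3 (not_le.mpr (h.c2 w))

end

end Pool.NTB
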