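import Pool.Agent.H82.NTB.Stmts
import Pool.Agent.H82.NTB.Core
import Pool.Agent.H82.NET.ASM

set_option autoImplicit false

namespace Pool.NTB

open Pool.NET Pool.POLY

/-- Scaled parameters. -/
def Par.sc (D : ℤ) (p : Par) : Par := ⟨D * p.q, D * p.W, D * p.M, D * p.S⟩

theorem POk.sc {p : Par} {e g : ℤ} (D : ℤ) (hD : 0 < D) (h : POk p e g) :
    POk (p.sc D) (D * e) (D * g) where
  q0 := mul_pos hD h.q0
  gq := by
    have := mul_le_mul_of_nonneg_left h.gq hD.le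
    change 10 * (D * p.q) ≤ D * g
    linarith
  gW := by
    have := mul_le_mul_of_nonneg_left h.gW hD.le
    change D * g + 10 * (D * p.q) ≤ D * p.W
    linarith
  We := by
    have := mul_le_mul_of_nonneg_left h.We hD.le
    change 8 * (D * p.W) ≤ D * e
    linarith
  eM := by
    have := mul_le_mul_of_nonneg_left h.eM hD.le
    change 5 * (D * e) ≤ D * p.M
    linarith
  MS := by
    have := mul_le_mul_of_nonneg_left h.MS hD.le
    change 3 * (D * p.M) ≤ D * p.S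
    linarith

theorem fx_sc (D : ℤ) (p : Par) (e g : ℤ) (b : Nd × Ke) :
    fx (p.sc D) (D * e) (D * g) b = D * fx p e g b := by
  obtain ⟨v, k⟩ := b
  cases k <;> simp only [fx, Par.sc] <;> ring

theorem fy_sc (D : ℤ) (p : Par) (e : ℤ) (b : Nd × Ke) :
    fy (p.sc D) (D * e) b = D * fy p e b := by
  obtain ⟨v, k⟩ := b
  cases k <;> simp only [fy, Par.sc] <;> ring

theorem prM_odd (p : Par) (e g : ℤ) (h u : Nd → Prop) (b : Nd × Ke) :
    ∃ m, prM p e g h u b = 2 * m + 1 := by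
  obtain ⟨v, k⟩ := b
  cases k <;> simp only [prM]
  · exact ⟨_, rfl⟩
  · exact ⟨_, rfl⟩
  · exact ⟨2 * (fx p e g (v, Ke.R) - p.q), by ring⟩
  · exact ⟨2 * (fx p e g (v, Ke.L) + p.q), by ring⟩
  all_goals exact ⟨_, rfl⟩

theorem prW_odd (p : Par) (e : ℤ) (h u : Nd → Prop) (t : Nd × Ke → ℤ) (b : Nd × Ke) :
    ∃ m, prW p e h u t b = 2 * m + 1 := by
  obtain ⟨v, k⟩ := b
  cases k <;> simp only [prW]
  · exact ⟨_, rfl⟩
  · exact ⟨_, rfl⟩
  · exact ⟨2 * (p.S * v.2 - e), by ring⟩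
  · exact ⟨2 * (p.S * v.2 + e), by ring⟩
  · exact ⟨_, rfl⟩
  · exact ⟨_, rfl⟩
  · exact ⟨2 * (fy p e (pv2 h u (v, Ke.J1)) + t (pv2 h u (v, Ke.J1))), by ring⟩
  · exact ⟨2 * (fy p e (pv2 h u (v, Ke.J2)) + t (pv2 h u (v, Ke.J2))), by ring⟩
  · exact ⟨2 * (fy p e (pv2 h u (v, Ke.J3)) + t (pv2 h u (v, Ke.J3))), by ring⟩
  · exact ⟨2 * (fy p e (pv2 h u (v, Ke.J4)) + t (pv2 h u (v, Ke.J4))), by ring⟩

theorem abs_inj {P a b : ℤ} (hP : ∃ m, P = 2 * m + 1) (h : |P - 4 * a| = |P - 4 * b|) : a = b := by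
  obtain ⟨m, rfl⟩ := hP
  rcases abs_eq_abs.mp h with h1 | h1 <;> omega

/-- From a system to an interval of a 1-Euclidean instance. -/
theorem sys2_thm (hELB : ELB_S) (hPIN : PIN2_S) (hSAM : SAM2_S) (hE1 : E1_S) (hE2 : E2_S)
    (hIVM : IVM_S) (hIVW : IVW_S) (hXSA : ∀ k, XSA k) (hXDF : ∀ k, XDF k) (hXMU : XMU_S)
    (hPRM : PRM_S) (P : Type) [Finite P] [PartialOrder P] (Z : Sys P) :
    ∃ (A : Type) (_ : Fintype A) (pM qM pW qW : A → ℤ) (π : Equiv.Perm A) (el : A → P),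
      Cond (fun a w => ((|pM a - qW w| : ℤ) : ℝ)) (fun w a => ((|pW w - qM a| : ℤ) : ℝ)) π el := by
  classical
  have _ := hELB
  let A : Type := {a : P × (Nd × Ke) // OK2 (Z.N a.1) (Z.h a.1) Z.u a.2}
  have hOKN : ∀ (z : P) (b : Nd × Ke), OK2 (Z.N z) (Z.h z) Z.u b → b.1 ∈ Z.N z := by
    intro z b hb
    obtain ⟨v, k⟩ := b
    cases k
    · exact hb
    · exact hb
    · exact hb.1
    · exact hb.1
    · exact hb.1
    · exact hb.1
    · exact hb
    · exact hb.1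
    · exact hb
    · exact hb.1
  have hAfin : Finite A := by
    have hKd : Finite Ke := by
      refine Finite.of_surjective (fun i : Fin 10 => match i with
        | 0 => Ke.NW | 1 => Ke.SE | 2 => Ke.R | 3 => Ke.L | 4 => Ke.T | 5 => Ke.B
        | 6 => Ke.J1 | 7 => Ke.J2 | 8 => Ke.J3 | 9 => Ke.J4) ?_
      intro k
      cases k
      · exact ⟨0, rfl⟩
      · exact ⟨1, rfl⟩
      · exact ⟨2, rfl⟩
      · exact ⟨3, rfl⟩
      · exact ⟨4, rfl⟩
      · exact ⟨5, rfl⟩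
      · exact ⟨6, rfl⟩
      · exact ⟨7, rfl⟩
      · exact ⟨8, rfl⟩
      · exact ⟨9, rfl⟩
    have hU : (⋃ z, Z.N z).Finite := Set.finite_iUnion Z.fin
    have : Finite (⋃ z, Z.N z) := hU
    refine Finite.of_injective (fun a : A =>
      ((a.1.1, (⟨a.1.2.1, Set.mem_iUnion.mpr ⟨a.1.1, hOKN _ _ a.2⟩⟩ : (⋃ z, Z.N z : Set Nd)),
        a.1.2.2) : P × (⋃ z, Z.N z : Set Nd) × Ke)) ?_
    intro a b hab
    simp only [Prod.mk.injEq, Subtype.mk.injEq] at hab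
    exact Subtype.ext (Prod.ext hab.1 (Prod.ext hab.2.1 hab.2.2))
  have hFA : Fintype A := Fintype.ofFinite A
  have hpin := fun z => hPIN (Z.N z) (Z.h z) Z.u (Z.hn z) (Z.un z)
  let π : Equiv.Perm A :=
    { toFun := fun a => ⟨(a.1.1, nx2 (Z.h a.1.1) Z.u a.1.2), (hpin a.1.1).1 _ a.2⟩
      invFun := fun a => ⟨(a.1.1, pv2 (Z.h a.1.1) Z.u a.1.2), (hpin a.1.1).2.1 _ a.2⟩
      left_inv := fun a => Subtype.ext (Prod.ext rfl ((hpin a.1.1).2.2.1 _ a.2))
      right_inv := fun a => Subtype.ext (Prod.ext rfl ((hpin a.1.1).2.2.2 _ a.2)) }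
  -- parameters
  obtain ⟨p0, e0, g0, hq0, hok0, hlt0, hne0⟩ := hPRM P 0
  let en : A ≃ Fin (Fintype.card A) := Fintype.equivFin A
  let D : ℤ := 8 * (Fintype.card A : ℤ) + 9
  have hD : 0 < D := by change 0 < 8 * (Fintype.card A : ℤ) + 9; positivity
  let p : Par := p0.sc D
  let e : P → ℤ := fun z => D * e0 z
  let g : P → ℤ := fun z => D * g0 z
  have hok : ∀ z, POk p (e z) (g z) := fun z => (hok0 z).sc D hD
  have hpq : p.q = D * p0.q := rfl
  have hDq : D ≤ p.q := by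
    rw [hpq]
    have : 0 < p0.q := by omega
    nlinarith
  have hlt : ∀ z z', z < z' → 4 * e z' ≤ e z ∧ g z + 10 * p.q ≤ g z' := by
    intro z z' h
    obtain ⟨h1, h2⟩ := hlt0 z z' h
    have h3 := mul_le_mul_of_nonneg_left h1 hD.le
    have h4 := mul_le_mul_of_nonneg_left h2 hD.le
    constructor
    · change 4 * (D * e0 z') ≤ D * e0 z
      linarith
    · rw [hpq]
      change D * g0 z + 10 * (D * p0.q) ≤ D * g0 z'
      linarith
  have hne : ∀ z z', z ≠ z' → (4 * e z ≤ e z' ∧ g z' + 10 * p.q ≤ g z) ∨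
      (4 * e z' ≤ e z ∧ g z + 10 * p.q ≤ g z') := by
    intro z z' h
    have key : ∀ z z', (4 * e0 z ≤ e0 z' ∧ g0 z' + 10 * p0.q ≤ g0 z) →
        (4 * e z ≤ e z' ∧ g z' + 10 * p.q ≤ g z) := by
      rintro z z' ⟨h1, h2⟩
      have h3 := mul_le_mul_of_nonneg_left h1 hD.le
      have h4 := mul_le_mul_of_nonneg_left h2 hD.le
      constructor
      · change 4 * (D * e0 z) ≤ D * e0 z'
        linarith
      · rw [hpq]
        change D * g0 z' + 10 * (D * p0.q) ≤ D * g0 z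
        linarith
    rcases hne0 z z' h with h1 | h1
    · exact Or.inl (key z z' h1)
    · exact Or.inr (key z' z h1)
  -- ties
  let tf : P → Nd × Ke → ℤ := fun z b =>
    if hb : OK2 (Z.N z) (Z.h z) Z.u b then ((en ⟨(z, b), hb⟩).1 : ℤ) else 0
  have htf : ∀ z b, 0 ≤ tf z b ∧ 8 * tf z b < D := by
    intro z b
    by_cases hb : OK2 (Z.N z) (Z.h z) Z.u b
    · have h1 : tf z b = ((en ⟨(z, b), hb⟩).1 : ℤ) := dif_pos hb
      have h2 := (en ⟨(z, b), hb⟩).2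
      rw [h1]
      change 0 ≤ _ ∧ _ < 8 * (Fintype.card A : ℤ) + 9
      constructor <;> omega
    · have h1 : tf z b = 0 := dif_neg hb
      rw [h1]
      exact ⟨le_rfl, by omega⟩
  have htq : ∀ z b, 0 ≤ tf z b ∧ 8 * tf z b < p.q := fun z b =>
    ⟨(htf z b).1, (htf z b).2.trans_le hDq⟩
  have htA : ∀ a : A, tf a.1.1 a.1.2 = ((en a).1 : ℤ) := fun a => dif_pos a.2
  have htinj : ∀ a b : A, tf a.1.1 a.1.2 = tf b.1.1 b.1.2 → a = b := by
    intro a b h
    rw [htA, htA] at h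
    exact en.injective (Fin.ext (by exact_mod_cast h))
  let X : A → ℤ := fun a => fx p (e a.1.1) (g a.1.1) a.1.2 + tf a.1.1 a.1.2
  let Y : A → ℤ := fun a => fy p (e a.1.1) a.1.2 + tf a.1.1 a.1.2
  have hDinj : ∀ (m m' : ℤ) (a b : A), D * m + tf a.1.1 a.1.2 = D * m' + tf b.1.1 b.1.2 →
      a = b := by
    intro m m' a b h
    apply htinj
    have h1 := htf a.1.1 a.1.2
    have h2 := htf b.1.1 b.1.2
    rcases lt_trichotomy m m' with h3 | h3 | h3
    · exfalso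
      have : D * (m + 1) ≤ D * m' := mul_le_mul_of_nonneg_left (by omega) hD.le
      have : D * (m + 1) = D * m + D := by ring
      omega
    · rw [h3] at h; omega
    · exfalso
      have : D * (m' + 1) ≤ D * m := mul_le_mul_of_nonneg_left (by omega) hD.le
      have : D * (m' + 1) = D * m' + D := by ring
      omega
  have hX : Function.Injective X := by
    intro a b h
    have h1 : D * fx p0 (e0 a.1.1) (g0 a.1.1) a.1.2 + tf a.1.1 a.1.2 =
        D * fx p0 (e0 b.1.1) (g0 b.1.1) b.1.2 + tf b.1.1 b.1.2 := by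
      rw [← fx_sc, ← fx_sc]; exact h
    exact hDinj _ _ a b h1
  have hY : Function.Injective Y := by
    intro a b h
    have h1 : D * fy p0 (e0 a.1.1) a.1.2 + tf a.1.1 a.1.2 =
        D * fy p0 (e0 b.1.1) b.1.2 + tf b.1.1 b.1.2 := by
      rw [← fy_sc, ← fy_sc]; exact h
    exact hDinj _ _ a b h1
  have hsame : ∀ (z : P) (a : A), a.1.1 = z → ∀ b : A, b.1.1 = z → π.SameCycle a b := by
    intro z a ha b hb
    let C : Set (Nd × Ke) := {c | ∃ hc : OK2 (Z.N z) (Z.h z) Z.u c, π.SameCycle a ⟨(z, c), hc⟩}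
    have hC : ∀ c, OK2 (Z.N z) (Z.h z) Z.u c → (c ∈ C ↔ nx2 (Z.h z) Z.u c ∈ C) := by
      intro c hc
      have h1 : OK2 (Z.N z) (Z.h z) Z.u (nx2 (Z.h z) Z.u c) := (hpin z).1 _ hc
      have h2 : π ⟨(z, c), hc⟩ = ⟨(z, nx2 (Z.h z) Z.u c), h1⟩ := rfl
      constructor
      · rintro ⟨_, h3⟩
        refine ⟨h1, ?_⟩
        rw [← h2]
        exact Equiv.Perm.sameCycle_apply_right.mpr h3
      · rintro ⟨_, h3⟩
        refine ⟨hc, ?_⟩
        rw [← h2] at h3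
        exact Equiv.Perm.sameCycle_apply_right.mp h3
    obtain ⟨⟨z1, a1⟩, ha1⟩ := a
    obtain ⟨⟨z2, b1⟩, hb1⟩ := b
    change z1 = z at ha
    change z2 = z at hb
    subst ha
    subst hb
    have h3 := hSAM (Z.N z2) (Z.h z2) Z.u (Z.fin z2) (Z.hn z2) (Z.un z2) (Z.tr z2) C hC a1 b1 ha1 hb1
    exact (h3.mp ⟨ha1, Equiv.Perm.SameCycle.refl _ _⟩).2
  have hpow : ∀ (n : ℕ) (a : A), ((π ^ n) a).1.1 = a.1.1 := by
    intro n
    induction n with
    | zero => intro a; rfl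
    | succ n ih =>
      intro a
      rw [pow_succ, Equiv.Perm.mul_apply, ih]
      rfl
  let pM : A → ℤ := fun a => prM p (e a.1.1) (g a.1.1) (Z.h a.1.1) Z.u a.1.2
  let qW : A → ℤ := fun a => 4 * X a
  let pW : A → ℤ := fun a => prW p (e a.1.1) (Z.h a.1.1) Z.u (tf a.1.1) a.1.2
  let qM : A → ℤ := fun a => 4 * Y a
  have hc1 : ∀ a, |pM a - qW a| < |pM a - qW (π a)| := by
    intro a
    exact hE1 p (e a.1.1) (g a.1.1) (Z.h a.1.1) Z.u (hok _) a.1.2 _ _ (htq _ _).1 (htq _ _).2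
      (htq _ _).1 (htq _ _).2
  have hc1n : ∀ a, π a ≠ a := by
    intro a hh
    have := hc1 a
    rw [hh] at this
    exact lt_irrefl _ this
  have hc1n' : ∀ a, π.symm a ≠ a := by
    intro a hh
    exact hc1n a (by conv_lhs => rw [← hh, Equiv.apply_symm_apply])
  have hc2 : ∀ w, |pW w - qM (π.symm w)| < |pW w - qM w| := by
    intro w
    refine hE2 p (e w.1.1) (g w.1.1) (Z.h w.1.1) Z.u (hok _) (tf w.1.1) (htq _) w.1.2 ?_
    intro h
    exact hc1n' w (hY h)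
  refine ⟨A, hFA, pM, qM, pW, qW, π, fun a => a.1.1, ?_, ?_, ?_, ?_, ?_, ?_, ?_, ?_⟩
  · intro a b c h
    have h1 : |pM a - 4 * X b| = |pM a - 4 * X c| := by
      have h0 : ((|pM a - 4 * X b| : ℤ) : ℝ) = ((|pM a - 4 * X c| : ℤ) : ℝ) := h
      exact_mod_cast h0
    exact hX (abs_inj (prM_odd _ _ _ _ _ _) h1)
  · intro a b c h
    have h1 : |pW a - 4 * Y b| = |pW a - 4 * Y c| := by
      have h0 : ((|pW a - 4 * Y b| : ℤ) : ℝ) = ((|pW a - 4 * Y c| : ℤ) : ℝ) := h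
      exact_mod_cast h0
    exact hY (abs_inj (prW_odd _ _ _ _ _ _) h1)
  · intro a
    exact_mod_cast hc1 a
  · intro w
    exact_mod_cast hc2 w
  · intro a w h1 h2
    have h1' : |pM a - qW w| ≤ |pM a - qW (π a)| := by exact_mod_cast h1
    have h2' : |pW w - qM a| ≤ |pW w - qM w| := by exact_mod_cast h2
    have h3 := hIVM p (e a.1.1) (g a.1.1) (Z.h a.1.1) Z.u (hok _) a.1.2
      (fx p (e w.1.1) (g w.1.1) w.1.2) (tf w.1.1 w.1.2) (tf (π a).1.1 (π a).1.2)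
      (htq _ _).1 (htq _ _).2 (htq _ _).1 (htq _ _).2 h1'
    have h4 := hIVW p (e w.1.1) (g w.1.1) (Z.h w.1.1) Z.u (hok _) (tf w.1.1) (htq _) w.1.2
      (fy p (e a.1.1) a.1.2) (tf a.1.1 a.1.2) (htq _ _).1 (htq _ _).2 h2'
    by_cases hz : a.1.1 = w.1.1
    · obtain ⟨⟨z, ⟨v, k⟩⟩, ha⟩ := a
      obtain ⟨⟨z', w1⟩, hw⟩ := w
      change z = z' at hz
      subst hz
      rcases hXSA k p (e z) (g z) (Z.N z) (Z.h z) Z.u (hok z) (Z.hn z) (Z.un z) v w1 ha hw
        h3.1 h3.2 h4.1 h4.2 with h5 | h5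
      · left
        exact Subtype.ext (Prod.ext rfl h5)
      · right; left
        exact Subtype.ext (Prod.ext rfl h5)
    · right; right
      obtain ⟨h5, ⟨n, hn, hn'⟩, h6, h7⟩ := hXDF a.1.2.2 p (e a.1.1) (g a.1.1) (e w.1.1) (g w.1.1)
        (Z.N a.1.1) (Z.N w.1.1) (Z.h a.1.1) (Z.h w.1.1) Z.u (hok _) (hok _) (Z.hn _) (Z.hn _)
        (Z.un _) (Z.un _) (hne _ _ hz) a.1.2.1 w.1.2 a.2 w.2 h3.1 h3.2 h4.1 h4.2
      refine ⟨?_, ?_, ?_⟩
      · have h8 : a.1.1 ≤ w.1.1 ∨ w.1.1 ≤ a.1.1 := by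
          by_contra h9
          rw [not_or] at h9
          exact Set.disjoint_left.mp (Z.dis _ _ h9.1 h9.2) hn hn'
        rcases h8 with h8 | h8
        · exfalso
          have h9 := (hlt _ _ (lt_of_le_of_ne h8 hz)).1
          have h10 := (hok a.1.1)
          have h11 := h10.q0
          have h12 := h10.gq
          have h13 := h10.gW
          have h14 := h10.We
          have h15 := h5.1
          omega
        · exact lt_of_le_of_ne h8 fun h => hz h.symm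
      · have h8 : |pM a - qW a| < |pM a - qW w| := by
          have h9 := htq a.1.1 a.1.2
          have h10 := htq w.1.1 w.1.2
          have h11 : |prM p (e a.1.1) (g a.1.1) (Z.h a.1.1) Z.u a.1.2 -
              4 * fx p (e a.1.1) (g a.1.1) a.1.2| + 2 * p.q ≤
              |prM p (e a.1.1) (g a.1.1) (Z.h a.1.1) Z.u a.1.2 -
              4 * fx p (e w.1.1) (g w.1.1) w.1.2| := h6
          change |prM p (e a.1.1) (g a.1.1) (Z.h a.1.1) Z.u a.1.2 -
              4 * (fx p (e a.1.1) (g a.1.1) a.1.2 + tf a.1.1 a.1.2)| <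
              |prM p (e a.1.1) (g a.1.1) (Z.h a.1.1) Z.u a.1.2 -
              4 * (fx p (e w.1.1) (g w.1.1) w.1.2 + tf w.1.1 w.1.2)|
          generalize prM p (e a.1.1) (g a.1.1) (Z.h a.1.1) Z.u a.1.2 = x1 at *
          generalize fx p (e a.1.1) (g a.1.1) a.1.2 = x2 at *
          generalize fx p (e w.1.1) (g w.1.1) w.1.2 = x3 at *
          generalize tf a.1.1 a.1.2 = x4 at *
          generalize tf w.1.1 w.1.2 = x5 at *
          have hq := (hok a.1.1).q0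
          rcases abs_cases (x1 - 4 * x2) with ⟨e1, _⟩ | ⟨e1, _⟩ <;>
          rcases abs_cases (x1 - 4 * x3) with ⟨e2, _⟩ | ⟨e2, _⟩ <;>
          rcases abs_cases (x1 - 4 * (x2 + x4)) with ⟨e3, _⟩ | ⟨e3, _⟩ <;>
          rcases abs_cases (x1 - 4 * (x3 + x5)) with ⟨e4, _⟩ | ⟨e4, _⟩ <;> omega
        exact_mod_cast h8
      · have h8 : |pW w - qM (π.symm w)| < |pW w - qM a| := by
          have h9 := htq a.1.1 a.1.2
          have h10 := htq w.1.1 (pv2 (Z.h w.1.1) Z.u w.1.2)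
          have h11 : |prW p (e w.1.1) (Z.h w.1.1) Z.u (tf w.1.1) w.1.2 -
              4 * fy p (e w.1.1) (pv2 (Z.h w.1.1) Z.u w.1.2)| + 2 * p.q ≤
              |prW p (e w.1.1) (Z.h w.1.1) Z.u (tf w.1.1) w.1.2 -
              4 * fy p (e a.1.1) a.1.2| := h7 (tf w.1.1)
          change |prW p (e w.1.1) (Z.h w.1.1) Z.u (tf w.1.1) w.1.2 -
              4 * (fy p (e w.1.1) (pv2 (Z.h w.1.1) Z.u w.1.2) +
                tf w.1.1 (pv2 (Z.h w.1.1) Z.u w.1.2))| <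
              |prW p (e w.1.1) (Z.h w.1.1) Z.u (tf w.1.1) w.1.2 -
              4 * (fy p (e a.1.1) a.1.2 + tf a.1.1 a.1.2)|
          generalize prW p (e w.1.1) (Z.h w.1.1) Z.u (tf w.1.1) w.1.2 = x1 at *
          generalize fy p (e w.1.1) (pv2 (Z.h w.1.1) Z.u w.1.2) = x2 at *
          generalize fy p (e a.1.1) a.1.2 = x3 at *
          generalize tf w.1.1 (pv2 (Z.h w.1.1) Z.u w.1.2) = x4 at *
          generalize tf a.1.1 a.1.2 = x5 at *
          have hq := (hok a.1.1).q0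
          rcases abs_cases (x1 - 4 * x2) with ⟨e1, _⟩ | ⟨e1, _⟩ <;>
          rcases abs_cases (x1 - 4 * x3) with ⟨e2, _⟩ | ⟨e2, _⟩ <;>
          rcases abs_cases (x1 - 4 * (x2 + x4)) with ⟨e3, _⟩ | ⟨e3, _⟩ <;>
          rcases abs_cases (x1 - 4 * (x3 + x5)) with ⟨e4, _⟩ | ⟨e4, _⟩ <;> omega
        exact_mod_cast h8
  · intro z z' hzz
    obtain ⟨v, hv, hv', hr, hr'⟩ := Z.cov z z' hzz
    have h6 := hlt z z' hzz.lt
    let a : A := ⟨(z', (v, Ke.SE)), hv'⟩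
    let w : A := ⟨(z, (v, Ke.R)), ⟨hv, hr⟩⟩
    obtain ⟨h7, h8⟩ := hXMU p (e z') (g z') (e z) (g z) (Z.h z') (Z.h z) Z.u (hok z') (hok z)
      h6.1 h6.2 v hr' hr (tf z) (tf z (v, Ke.R)) (tf z' (nx2 (Z.h z') Z.u (v, Ke.SE)))
      (tf z' (v, Ke.SE)) (tf z (v, Ke.R)) (htq _ _).1 (htq _ _).2 (htq _ _).1 (htq _ _).2
      (htq _ _).1 (htq _ _).2 (htq _ _).1 (htq _ _).2
    have h9 : |pM a - qW w| ≤ |pM a - qW (π a)| := h7
    have h10 : |pW w - qM a| ≤ |pW w - qM w| := h8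
    exact ⟨a, w, rfl, rfl, by exact_mod_cast h9, by exact_mod_cast h10⟩
  · intro a b
    constructor
    · intro h
      exact hsame b.1.1 a h b rfl
    · intro h
      obtain ⟨n, hn⟩ := h.exists_nat_pow_eq
      rw [← hn]
      exact (hpow n a).symm
  · intro z
    obtain ⟨v, hv⟩ := Z.ne z
    exact ⟨⟨(z, (v, Ke.NW)), hv⟩, rfl⟩

end Pool.NTB
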