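import Pool.Agent.H82.NTB.Defs

/-!
# Board `ntb`: the statements
-/

set_option autoImplicit false

namespace Pool.NTB

open Pool.NET

/-- `nx2` and `pv2` preserve the existing corners and are inverse to each other there. -/
def PIN2_S : Prop := ∀ (N : Set Nd) (h u : Nd → Prop), HN N h → UN N u →
  (∀ a, OK2 N h u a → OK2 N h u (nx2 h u a)) ∧ (∀ a, OK2 N h u a → OK2 N h u (pv2 h u a)) ∧
  (∀ a, OK2 N h u a → pv2 h u (nx2 h u a) = a) ∧ ∀ a, OK2 N h u a → nx2 h u (pv2 h u a) = a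

/-- As `SAM_S` (see `Pool/Agent/H50/NET/SAM.lean`): a set of corners invariant under `nx2` contains
all or none of the existing corners.  Take `nw v := (v, NW) ∈ D`, `se v := (v, SE) ∈ D`,
`ne v := (v, J1) ∈ D`, `sw v := (v, J3) ∈ D` in `ELB_S`. -/
def SAM2_S : Prop := ∀ (N : Set Nd) (h u : Nd → Prop), N.Finite → HN N h → UN N u → Tr N h u →
  ∀ D : Set (Nd × Ke), (∀ a, OK2 N h u a → (a ∈ D ↔ nx2 h u a ∈ D)) →
  ∀ a b, OK2 N h u a → OK2 N h u b → (a ∈ D ↔ b ∈ D)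

/-- E1: the man's own position is nearer than the next one. -/
def E1_S : Prop := ∀ (p : Par) (e g : ℤ) (h u : Nd → Prop), POk p e g →
  ∀ (a : Nd × Ke) (s t : ℤ), 0 ≤ s → 8 * s < p.q → 0 ≤ t → 8 * t < p.q →
  |prM p e g h u a - 4 * (fx p e g a + s)| < |prM p e g h u a - 4 * (fx p e g (nx2 h u a) + t)|

/-- E2: the previous position is nearer to the woman than her own one. -/
def E2_S : Prop := ∀ (p : Par) (e g : ℤ) (h u : Nd → Prop), POk p e g →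
  ∀ (t : Nd × Ke → ℤ), (∀ b, 0 ≤ t b ∧ 8 * t b < p.q) → ∀ w,
  fy p e (pv2 h u w) + t (pv2 h u w) ≠ fy p e w + t w →
  |prW p e h u t w - 4 * (fy p e (pv2 h u w) + t (pv2 h u w))| <
    |prW p e h u t w - 4 * (fy p e w + t w)|

/-- IVM: from the ball of a man to the nominal range.  (`Z` is the nominal position, `s` its tie.) -/
def IVM_S : Prop := ∀ (p : Par) (e g : ℤ) (h u : Nd → Prop), POk p e g →
  ∀ (a : Nd × Ke) (Z s t : ℤ), 0 ≤ s → 8 * s < p.q → 0 ≤ t → 8 * t < p.q →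
  |prM p e g h u a - 4 * (Z + s)| ≤ |prM p e g h u a - 4 * (fx p e g (nx2 h u a) + t)| →
  lo p e g h u a ≤ Z ∧ Z ≤ hi p e g h u a

/-- IVW: from the ball of a woman to the nominal range. -/
def IVW_S : Prop := ∀ (p : Par) (e g : ℤ) (h u : Nd → Prop), POk p e g →
  ∀ (t : Nd × Ke → ℤ), (∀ b, 0 ≤ t b ∧ 8 * t b < p.q) → ∀ (w : Nd × Ke) (Z s : ℤ),
  0 ≤ s → 8 * s < p.q →
  |prW p e h u t w - 4 * (Z + s)| ≤ |prW p e h u t w - 4 * (fy p e w + t w)| →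
  jl p e h u w ≤ Z ∧ Z ≤ jh p e h u w

/-- XSA k: crossings of an element with itself, first corner of kind `k` (nominal ranges). -/
def XSA (k : Ke) : Prop := ∀ (p : Par) (e g : ℤ) (N : Set Nd) (h u : Nd → Prop), POk p e g →
  HN N h → UN N u → ∀ (v : Nd) (w : Nd × Ke), OK2 N h u (v, k) → OK2 N h u w →
  lo p e g h u (v, k) ≤ fx p e g w → fx p e g w ≤ hi p e g h u (v, k) →
  jl p e h u w ≤ fy p e (v, k) → fy p e (v, k) ≤ jh p e h u w → w = (v, k) ∨ w = nx2 h u (v, k)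

/-- XDF k: crossings of different elements, first corner of kind `k` (nominal ranges).  Only
`k = SE, J2, NW, J4, R, L` and `w` of kind `R`, `L` are possible; the first element is the narrower
one. -/
def XDF (k : Ke) : Prop := ∀ (p : Par) (e g e' g' : ℤ) (N N' : Set Nd) (h h' u : Nd → Prop),
  POk p e g → POk p e' g' → HN N h → HN N' h' → UN N u → UN N' u →
  ((4 * e ≤ e' ∧ g' + 10 * p.q ≤ g) ∨ (4 * e' ≤ e ∧ g + 10 * p.q ≤ g')) →
  ∀ (v : Nd) (w : Nd × Ke), OK2 N h u (v, k) → OK2 N' h' u w →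
  lo p e g h u (v, k) ≤ fx p e' g' w → fx p e' g' w ≤ hi p e g h u (v, k) →
  jl p e' h' u w ≤ fy p e (v, k) → fy p e (v, k) ≤ jh p e' h' u w →
  (4 * e ≤ e' ∧ g' + 10 * p.q ≤ g) ∧ (∃ n, n ∈ N ∧ n ∈ N') ∧
  |prM p e g h u (v, k) - 4 * fx p e g (v, k)| + 2 * p.q ≤
    |prM p e g h u (v, k) - 4 * fx p e' g' w| ∧
  ∀ t : Nd × Ke → ℤ, |prW p e' h' u t w - 4 * fy p e' (pv2 h' u w)| + 2 * p.q ≤
    |prW p e' h' u t w - 4 * fy p e (v, k)|

/-- XMU: the crossing at a common node where both lack the right arm. -/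
def XMU_S : Prop := ∀ (p : Par) (e g e' g' : ℤ) (h h' u : Nd → Prop), POk p e g → POk p e' g' →
  4 * e ≤ e' → g' + 10 * p.q ≤ g → ∀ v : Nd, ¬ h v → ¬ h' v → ∀ t' : Nd × Ke → ℤ,
  ∀ s1 s2 s3 s4 : ℤ, 0 ≤ s1 → 8 * s1 < p.q → 0 ≤ s2 → 8 * s2 < p.q → 0 ≤ s3 → 8 * s3 < p.q →
  0 ≤ s4 → 8 * s4 < p.q →
  |prM p e g h u (v, Ke.SE) - 4 * (fx p e' g' (v, Ke.R) + s1)| ≤
    |prM p e g h u (v, Ke.SE) - 4 * (fx p e g (nx2 h u (v, Ke.SE)) + s2)| ∧
  |prW p e' h' u t' (v, Ke.R) - 4 * (fy p e (v, Ke.SE) + s3)| ≤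
    |prW p e' h' u t' (v, Ke.R) - 4 * (fy p e' (v, Ke.R) + s4)|

/-- PRM: parameters.  (E.g. along an injective monotone rank `ρ < K`: `g = 10 q (ρ + 1)`,
`e = E 4 ^ (K - ρ)`.) -/
def PRM_S : Prop := ∀ (P : Type) [Finite P] [PartialOrder P] (T : ℤ), ∃ (p : Par) (e g : P → ℤ),
  8 * T < p.q ∧ (∀ z, POk p (e z) (g z)) ∧
  (∀ z z', z < z' → 4 * e z' ≤ e z ∧ g z + 10 * p.q ≤ g z') ∧
  ∀ z z', z ≠ z' → (4 * e z ≤ e z' ∧ g z' + 10 * p.q ≤ g z) ∨ (4 * e z' ≤ e z ∧ g z + 10 * p.q ≤ g z')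

end Pool.NTB
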